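import Pool.Agent.R325.Dim.Main

/-!
# MP_6c00f2_co

Exact value of `dim(Z_n, m)` for odd `n` and `m` near `n`, and failure of the conjecture
`dim(Z_n, m) = ⌊log₂ m⌋` for infinitely many `n`.
-/

set_option autoImplicit false

namespace Pool.Agent.Results.MP_6c00f2_co.CyclicConjectureFails

open Pool.Agent.R325.Dim

theorem result :
    (∀ n m : ℕ, Odd n → m ≤ n → (n - m) * Nat.log 2 n < Nat.totient n →
      dimGm (ZMod n) m = Nat.log 2 n) ∧
    (∀ k : ℕ, 4 ≤ k → dimGm (ZMod (2 ^ k + 1)) (2 ^ k - 1) = k ∧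
      Nat.log 2 (2 ^ k - 1) = k - 1) ∧
    (∀ m : ℕ, 14 ≤ m → m ≤ 17 → dimGm (ZMod 17) m = 4) ∧ Nat.log 2 14 = 3 ∧ Nat.log 2 15 = 3 := by
  have hlog : Nat.log 2 17 = 4 := by decide
  have htot : Nat.totient 17 = 16 := by
    rw [Nat.totient_prime (by norm_num)]
  refine ⟨fun n m hn hm h => dimGm_eq hn hm h, fun k hk => ⟨counter hk, log_sub (by omega)⟩,
    fun m hm hm' => ?_, by decide, by decide⟩
  rw [dimGm_eq (by decide) hm' (by rw [hlog, htot]; omega), hlog]

end Pool.Agent.Results.MP_6c00f2_co.CyclicConjectureFails
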